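import Pool.Agent.MVO.StmtsL

/-!
# Squad MVO, block L, row OPF

The reversed functorial congruence.
-/

set_option autoImplicit false

namespace Pool.Agent.MVO.H76

open Pool.Agent.MVO

/-- Pushing the reversed vector with the reversed map. -/
theorem psh_rev (k k' : ℕ) (f : ℕ → ℕ) (hf : BMap k k' f) (a : ℕ → ℕ) (j : ℕ) (hj : j ≤ k') :
    psh k (fun j => k' - f (k - j)) (fun j => a (k - j)) j = psh k f a (k' - j) := by
  have h := Finset.sum_range_reflect (fun i => if f i = k' - j then a i else 0) (k + 1)
  unfold psh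
  rw [← h]
  refine Finset.sum_congr rfl fun i hi => ?_
  rw [Finset.mem_range] at hi
  have e1 : k + 1 - 1 - i = k - i := by omega
  rw [e1]
  have h1 : f (k - i) ≤ k' := hf.le (k - i) (by omega)
  have h2 : (k' - f (k - i) = j) ↔ (f (k - i) = k' - j) := by omega
  by_cases h3 : f (k - i) = k' - j
  · rw [if_pos h3, if_pos (h2.2 h3)]
  · rw [if_neg h3, if_neg (fun h4 => h3 (h2.1 h4))]

/-- The reversed functorial congruence. -/
def rev (R : FC) : FC where
  R k a b := R.R k (fun j => a (k - j)) (fun j => b (k - j))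
  refl k a := R.refl k _
  symm h := R.symm h
  trans h h' := R.trans h h'
  ext h h' hR := R.ext (fun j _ => h _ (Nat.sub_le _ _)) (fun j _ => h' _ (Nat.sub_le _ _)) hR
  add := fun {k a b} d hR => R.add (fun j => d (k - j)) hR
  push := fun {k a b} k' f hf hR => by
    have hf' : BMap k k' (fun j => k' - f (k - j)) :=
      ⟨fun i j hij hjk => Nat.sub_le_sub_left (hf.mono _ _ (by omega) (by omega)) _,
        fun i _ => Nat.sub_le _ _⟩
    have h := R.push k' _ hf' hR
    exact R.ext (fun j hj => psh_rev k k' f hf a j hj) (fun j hj => psh_rev k k' f hf b j hj) h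

/-- OPF. -/
theorem opf : OpfStmt := by
  intro R
  refine ⟨rev R, fun k a b => Iff.rfl, fun h => ?_⟩
  have h' : R.R 1 (v2 0 3) (v2 1 2) := R.symm h
  refine R.ext (fun j hj => ?_) (fun j hj => ?_) h'
  · interval_cases j <;> simp [v2]
  · interval_cases j <;> simp [v2]

end Pool.Agent.MVO.H76
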